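import Pool.Agent.Helper78.ME.Goals
import Pool.Agent.Helper78.Mpc.MMain

/-!
# Packet PAR2 (helper78, campaign ME): the number of simulated steps
-/

namespace Pool.Agent.Helper38.ME

open Pool.Agent.Helper65.LinSpace Pool.Agent.Helper78.Mpc Pool.Agent.Helper28.Ram Finset Filter
open Pool.Agent.Helper78.ME

theorem ll_one_le (n : ℕ) : 1 ≤ ll n := Nat.le_add_left _ _

theorem le_four (x y : ℕ) (hy : 0 < y) (h : 2 * y ≤ x) : x ≤ 4 * y * (x / y - 1) := by
  have h1 : 2 ≤ x / y := (Nat.le_div_iff_mul_le hy).2 h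
  have h2 : x < y * (x / y + 1) := Nat.lt_mul_div_succ x hy
  have h3 : x / y + 1 ≤ 4 * (x / y - 1) := by omega
  calc x ≤ y * (x / y + 1) := h2.le
    _ ≤ y * (4 * (x / y - 1)) := Nat.mul_le_mul_left _ h3
    _ = _ := by ring

theorem kap_le (n : ℕ) : kap n ≤ 10 * ll n := by
  have := ll_one_le n
  unfold kap; omega

theorem kapD_le (n D : ℕ) (hD : 0 < D) : kap n * D + 1 ≤ 11 * (D * ll n) := by
  have h1 := kap_le n
  have h2 := ll_one_le n
  have h3 : 1 ≤ D * ll n := Nat.mul_pos hD h2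
  calc kap n * D + 1 ≤ 10 * ll n * D + D * ll n := Nat.add_le_add (Nat.mul_le_mul_right _ h1) h3
    _ = _ := by ring

theorem le_ll_mR (n : ℕ) : n ≤ ll n * Pool.Agent.Helper78.Ep.mR n := by
  have h1 := Nat.lt_mul_div_succ n (ll_one_le n)
  refine h1.le.trans (Nat.mul_le_mul_left _ ?_)
  unfold Pool.Agent.Helper78.Ep.mR
  omega

theorem pow_split (D d : ℕ) (hD : 0 < D) : d ^ (2 * D - 1) = d ^ (D - 1) * (d ^ (D - 1) * d) := by
  rw [← pow_succ, ← pow_add]
  congr 1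
  omega

theorem pow_split' (D d : ℕ) (hD : 0 < D) : d ^ D = d ^ (D - 1) * d := by
  rw [← pow_succ]
  congr 1
  omega

theorem cost_le (n s D k d : ℕ) (hD : 0 < D) (hs : 1 ≤ s) (hd : 1 ≤ d) :
    cost n s D k d ≤ ((k + 2) * (4 + 10 * (D * (k + 1))) + (k + 1) * (2 * 3 ^ D)) *
      (ll n * s * d ^ (2 * D - 1)) := by
  have hl := ll_one_le n
  have hE : 1 ≤ d ^ (D - 1) := Nat.one_le_pow _ _ hd
  have hL : s ≤ ll n * s := Nat.le_mul_of_pos_left s hl
  have hσ : 2 * (s + 1) + kap n * (D * (k + 1)) ≤ (4 + 10 * (D * (k + 1))) * (ll n * s) := by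
    have h1 : kap n * (D * (k + 1)) ≤ 10 * (ll n * s) * (D * (k + 1)) := by
      refine Nat.mul_le_mul_right _ ((kap_le n).trans (Nat.mul_le_mul_left _ ?_))
      exact Nat.le_mul_of_pos_right _ hs
    calc 2 * (s + 1) + kap n * (D * (k + 1)) ≤ 4 * (ll n * s) + 10 * (ll n * s) * (D * (k + 1)) := by
          omega
      _ = _ := by ring
  have e1 : (3 * d) ^ D = 3 ^ D * (d ^ (D - 1) * d) := by rw [mul_pow, pow_split' D d hD]
  unfold cost
  rw [e1, pow_split D d hD]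
  generalize 2 * (s + 1) + kap n * (D * (k + 1)) = σ at *
  generalize d ^ (D - 1) = E at *
  generalize hL' : ll n * s = L at *
  generalize 4 + 10 * (D * (k + 1)) = a at *
  generalize 3 ^ D = t at *
  have h2 : s + 1 ≤ 2 * L := by omega
  have hd' : 1 ≤ E * d := Nat.mul_pos hE hd
  have h3 : k * E + 1 ≤ (k + 1) * E := by
    calc k * E + 1 ≤ k * E + E := Nat.add_le_add_left hE _
      _ = _ := by ring
  have h4 : σ + (s + 1) * (t * (E * d)) ≤ (a * L + 2 * L * t) * (E * d) := by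
    calc σ + (s + 1) * (t * (E * d)) ≤ a * L * (E * d) + 2 * L * (t * (E * d)) :=
          Nat.add_le_add (hσ.trans (Nat.le_mul_of_pos_right _ hd')) (Nat.mul_le_mul_right _ h2)
      _ = _ := by ring
  calc E * (σ * (E * d)) + (k * E + 1) * (σ + (s + 1) * (t * (E * d)))
      ≤ E * (a * L * (E * d)) + (k + 1) * E * ((a * L + 2 * L * t) * (E * d)) :=
        Nat.add_le_add (Nat.mul_le_mul_left _ (Nat.mul_le_mul_right _ hσ)) (Nat.mul_le_mul h3 h4)
    _ = _ := by ring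

/-- The constant of the first part. -/
def c2 (D k : ℕ) : ℕ :=
  ((k + 2) * (4 + 10 * (D * (k + 1))) + (k + 1) * (2 * 3 ^ D) + 11 * (D * k)) * 2 ^ (2 * D - 1)

theorem key1 (D k : ℕ) (hD : 0 < D) (n s d : ℕ) (hs : 1 ≤ s) (hd : 1 ≤ d)
    (h3 : kap n * D + 1 ≤ Pool.Agent.Helper78.Ep.mR n + 1) (hf : fits n s D k (d + 1) = 0) :
    n ≤ c2 D k * (ll n * ll n * s * d ^ (2 * D - 1)) := by
  have hl := ll_one_le n
  have hdd : (d + 1) ^ (2 * D - 1) ≤ 2 ^ (2 * D - 1) * d ^ (2 * D - 1) := by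
    rw [← mul_pow]
    exact Nat.pow_le_pow_left (by omega) _
  by_cases h1 : cost n s D k (d + 1) ≤ Pool.Agent.Helper78.Ep.mR n
  · by_cases h2 : (kap n * D + 1) * (k * (d + 1) ^ (D - 1)) ≤ n + 8
    · exfalso
      unfold fits le01 at hf
      rw [if_pos h1, if_pos h2, if_pos h3] at hf
      omega
    · have h4 : (d + 1) ^ (D - 1) ≤ (d + 1) ^ (2 * D - 1) :=
        Nat.pow_le_pow_right (by omega) (by omega)
      calc n ≤ (kap n * D + 1) * (k * (d + 1) ^ (D - 1)) := by omega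
        _ ≤ 11 * (D * ll n) * (k * (2 ^ (2 * D - 1) * d ^ (2 * D - 1))) :=
          Nat.mul_le_mul (kapD_le n D hD) (Nat.mul_le_mul_left _ (h4.trans hdd))
        _ = 11 * (D * k) * 2 ^ (2 * D - 1) * (ll n * d ^ (2 * D - 1)) := by ring
        _ ≤ c2 D k * (ll n * ll n * s * d ^ (2 * D - 1)) := by
          unfold c2
          refine Nat.mul_le_mul (Nat.mul_le_mul_right _ (Nat.le_add_left _ _))
            (Nat.mul_le_mul_right _ ?_)
          rw [mul_assoc]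
          exact Nat.le_mul_of_pos_right _ (Nat.mul_pos hl hs)
  · have h4 : Pool.Agent.Helper78.Ep.mR n ≤ cost n s D k (d + 1) := by omega
    calc n ≤ ll n * Pool.Agent.Helper78.Ep.mR n := le_ll_mR n
      _ ≤ ll n * (((k + 2) * (4 + 10 * (D * (k + 1))) + (k + 1) * (2 * 3 ^ D)) *
          (ll n * s * (2 ^ (2 * D - 1) * d ^ (2 * D - 1)))) :=
        Nat.mul_le_mul_left _ ((h4.trans (cost_le n s D k (d + 1) hD hs (by omega))).trans
          (Nat.mul_le_mul_left _ (Nat.mul_le_mul_left _ hdd)))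
      _ = ((k + 2) * (4 + 10 * (D * (k + 1))) + (k + 1) * (2 * 3 ^ D)) * 2 ^ (2 * D - 1) *
          (ll n * ll n * s * d ^ (2 * D - 1)) := by ring
      _ ≤ c2 D k * (ll n * ll n * s * d ^ (2 * D - 1)) := by
        unfold c2
        exact Nat.mul_le_mul_right _ (Nat.mul_le_mul_right _ (Nat.le_add_right _ _))

theorem le_min_mul (x c a b : ℕ) (ha : x ≤ c * a) (hb : x ≤ c * b) : x ≤ c * min a b := by
  rcases min_choice a b with h | h <;> rw [h] <;> assumption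

theorem key2 (D k : ℕ) (hD : 0 < D) (hk : 0 < k) (n s d : ℕ) (hd : 1 ≤ d)
    (hn : 484 * (D * D * (k * k)) * (ll n * ll n) ≤ n) (hf : fits n s D k d = 1) :
    n ≤ (12 + 44 * (D * k)) * (ll n * ll n) * (d ^ (D - 1)) *
      (min (Pool.Agent.Helper78.Ep.mR n / (d ^ (D - 1) + 2))
        (min ((n + 8) / ((kap n * D + 1) * (k * d ^ (D - 1))))
          ((Pool.Agent.Helper78.Ep.mR n + 1) / (kap n * D + 1)) - 1)) := by
  have hl := ll_one_le n
  have hE : 1 ≤ d ^ (D - 1) := Nat.one_le_pow _ _ hd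
  have hc : cost n s D k d ≤ Pool.Agent.Helper78.Ep.mR n := by
    by_contra h
    unfold fits le01 at hf
    rw [if_neg h, Nat.zero_mul] at hf
    omega
  have hEE : d ^ (D - 1) * d ^ (D - 1) ≤ Pool.Agent.Helper78.Ep.mR n := by
    refine le_trans ?_ hc
    unfold cost
    refine le_trans ?_ (Nat.le_add_right _ _)
    refine Nat.mul_le_mul_left _ ?_
    have h1 : 1 ≤ 2 * (s + 1) + kap n * (D * (k + 1)) := by omega
    calc d ^ (D - 1) ≤ d ^ (D - 1) * d := Nat.le_mul_of_pos_right _ hd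
      _ ≤ _ := Nat.le_mul_of_pos_left _ h1
  have hM : Pool.Agent.Helper78.Ep.mR n ≤ n + 8 := by
    unfold Pool.Agent.Helper78.Ep.mR
    exact Nat.add_le_add_right (Nat.div_le_self _ _) _
  have hDk : 1 ≤ D * k := Nat.mul_pos hD hk
  have hML : 22 * (D * ll n) ≤ Pool.Agent.Helper78.Ep.mR n := by
    unfold Pool.Agent.Helper78.Ep.mR
    refine le_trans ?_ (Nat.le_add_right _ _)
    rw [Nat.le_div_iff_mul_le hl]
    refine le_trans ?_ hn
    have h1 : D ≤ D * D * (k * k) := by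
      calc D = D * 1 * (1 * 1) := by ring
        _ ≤ D * D * (k * k) := Nat.mul_le_mul (Nat.mul_le_mul_left _ hD) (Nat.mul_le_mul hk hk)
    calc 22 * (D * ll n) * ll n = 22 * D * (ll n * ll n) := by ring
      _ ≤ 484 * (D * D * (k * k)) * (ll n * ll n) :=
        Nat.mul_le_mul_right _ (Nat.mul_le_mul (by omega) h1)
  have hM22 : 22 ≤ Pool.Agent.Helper78.Ep.mR n := by
    refine le_trans ?_ hML
    have : 1 ≤ D * ll n := Nat.mul_pos hD hl
    omega
  have hnM := le_ll_mR n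
  have hkap := kapD_le n D hD
  have hkp : 0 < kap n * D + 1 := Nat.succ_pos _
  generalize Pool.Agent.Helper78.Ep.mR n = M at *
  generalize d ^ (D - 1) = E at *
  generalize kap n * D + 1 = κ at *
  generalize ll n = l at *
  have hll : l ≤ l * l := Nat.le_mul_of_pos_left _ hl
  have hA : n ≤ 12 * (l * l) * E * (M / (E + 2)) := by
    have h1 : 2 * (E + 2) ≤ M := by
      rcases Nat.lt_or_ge E 4 with h | h
      · omega
      · nlinarith
    have h2 := le_four M (E + 2) (by omega) h1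
    calc n ≤ l * M := hnM
      _ ≤ l * (4 * (E + 2) * (M / (E + 2) - 1)) := Nat.mul_le_mul_left _ h2
      _ ≤ (l * l) * (4 * (3 * E) * (M / (E + 2))) :=
        Nat.mul_le_mul hll (Nat.mul_le_mul (Nat.mul_le_mul_left _ (by omega)) (Nat.sub_le _ _))
      _ = _ := by ring
  have hB : n ≤ 44 * (D * k) * (l * l) * E * ((n + 8) / (κ * (k * E)) - 1) := by
    have hy : 0 < κ * (k * E) := Nat.mul_pos hkp (Nat.mul_pos hk hE)
    have h1 : 2 * (κ * (k * E)) ≤ n + 8 := by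
      by_contra hcon
      push Not at hcon
      have h2 : (n + 8) * (n + 8) < 2 * (κ * (k * E)) * (2 * (κ * (k * E))) :=
        Nat.mul_lt_mul'' hcon hcon
      have h3 : 2 * (κ * (k * E)) * (2 * (κ * (k * E))) ≤ 484 * (D * D * (k * k)) * (l * l) * (n + 8) := by
        calc 2 * (κ * (k * E)) * (2 * (κ * (k * E))) = 4 * (κ * κ) * (k * k) * (E * E) := by ring
          _ ≤ 4 * (11 * (D * l) * (11 * (D * l))) * (k * k) * (n + 8) :=
            Nat.mul_le_mul (Nat.mul_le_mul_right _ (Nat.mul_le_mul_left _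
              (Nat.mul_le_mul hkap hkap))) (hEE.trans hM)
          _ = _ := by ring
      have h4 : 484 * (D * D * (k * k)) * (l * l) * (n + 8) ≤ (n + 8) * (n + 8) :=
        Nat.mul_le_mul_right _ (hn.trans (Nat.le_add_right _ _))
      omega
    have h2 := le_four (n + 8) (κ * (k * E)) hy h1
    calc n ≤ n + 8 := Nat.le_add_right _ _
      _ ≤ 4 * (κ * (k * E)) * ((n + 8) / (κ * (k * E)) - 1) := h2
      _ ≤ 4 * (11 * (D * (l * l)) * (k * E)) * ((n + 8) / (κ * (k * E)) - 1) :=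
        Nat.mul_le_mul_right _ (Nat.mul_le_mul_left _ (Nat.mul_le_mul_right _
          (hkap.trans (Nat.mul_le_mul_left _ (Nat.mul_le_mul_left _ hll)))))
      _ = _ := by ring
  have hC : n ≤ 44 * (D * k) * (l * l) * E * ((M + 1) / κ - 1) := by
    have h1 : 2 * κ ≤ M + 1 := by omega
    have h2 := le_four (M + 1) κ hkp h1
    calc n ≤ l * M := hnM
      _ ≤ l * (4 * (11 * (D * l)) * ((M + 1) / κ - 1)) :=
        Nat.mul_le_mul_left _ ((Nat.le_succ M).trans (h2.trans (Nat.mul_le_mul_right _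
          (Nat.mul_le_mul_left _ hkap))))
      _ = 44 * (D * 1) * (l * l) * 1 * ((M + 1) / κ - 1) := by ring
      _ ≤ _ := Nat.mul_le_mul_right _ (Nat.mul_le_mul (Nat.mul_le_mul_right _
        (Nat.mul_le_mul_left _ (Nat.mul_le_mul_left _ hk))) hE)
  refine le_min_mul _ _ _ _ (hA.trans ?_) ?_
  · refine Nat.mul_le_mul_right _ (Nat.mul_le_mul_right _ (Nat.mul_le_mul_right _ ?_))
    omega
  · have e : min ((n + 8) / (κ * (k * E))) ((M + 1) / κ) - 1 =
        min ((n + 8) / (κ * (k * E)) - 1) ((M + 1) / κ - 1) := by omega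
    rw [e]
    have h5 : 44 * (D * k) * (l * l) * E ≤ (12 + 44 * (D * k)) * (l * l) * E :=
      Nat.mul_le_mul_right _ (Nat.mul_le_mul_right _ (Nat.le_add_left _ _))
    exact le_min_mul _ _ _ _ (hB.trans (Nat.mul_le_mul_right _ h5))
      (hC.trans (Nat.mul_le_mul_right _ h5))

theorem blocks_eq (n s D k : ℕ) (hk : 0 < k) (hD : D ≤ ll n) (hkn : k ≤ n) (hs : s ≤ n)
    (hd : 0 < dd n s D k) : blocks n s D k =
      (min (Pool.Agent.Helper78.Ep.mR n / (dd n s D k ^ (D - 1) + 2))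
        (min ((n + 8) / ((kap n * D + 1) * (k * dd n s D k ^ (D - 1))))
          ((Pool.Agent.Helper78.Ep.mR n + 1) / (kap n * D + 1)) - 1)) := by
  have e1 : min s n = s := min_eq_left hs
  have e2 : min D (ll n) = D := min_eq_left hD
  have e3 : min (k - 1) n + 1 = k := by omega
  have e4 : pD n s D k = D := by
    unfold pD; rw [e1, e2, e3, ifz_ne hd.ne']
  have e5 : pk n s D k = k := by
    unfold pk; rw [e1, e2, e3, ifz_ne hd.ne']
  have e6 : pd n s D k = dd n s D k := by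
    unfold pd; rw [e1, e2, e3, ifz_ne hd.ne']
  unfold blocks
  rw [e4, e5, e6]

/-- The real inequality. -/
theorem real_key (D : ℕ) (hD : 0 < D) (C2 C3 n l s d K : ℕ) (hl : 1 ≤ l) (hn : 1 ≤ n)
    (hC2 : 0 < C2) (hC3 : 0 < C3)
    (h1 : n ≤ C2 * (l * l * s * d ^ (2 * D - 1)))
    (h2 : n ≤ C3 * (l * l) * d ^ (D - 1) * K) :
    1 / ((C2 : ℝ) ^ ((D : ℝ) / (2 * (D : ℝ) - 1)) * C3) *
      (n : ℝ) ^ ((3 * (D : ℝ) - 1) / (2 * (D : ℝ) - 1)) / (l : ℝ) ^ 4 ≤
      (s : ℝ) ^ ((D : ℝ) / (2 * (D : ℝ) - 1)) *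
        (K * (d ^ (D - 1) * (d ^ (D - 1) * d)) : ℕ) := by
  have hDr : (1 : ℝ) ≤ D := by exact_mod_cast hD
  have hden : 0 < 2 * (D : ℝ) - 1 := by linarith
  set θ : ℝ := (D : ℝ) / (2 * (D : ℝ) - 1) with hθ
  have hθ0 : 0 ≤ θ := by positivity
  have hθ1 : θ ≤ 1 := by
    rw [hθ, div_le_one hden]; linarith
  have hρ : (3 * (D : ℝ) - 1) / (2 * (D : ℝ) - 1) = 1 + θ := by
    rw [hθ, one_add_div hden.ne']; congr 1; ring
  have hn0 : (0 : ℝ) < n := by exact_mod_cast hn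
  have hl0 : (1 : ℝ) ≤ l := by exact_mod_cast hl
  have hlp : (0 : ℝ) < l := by linarith
  have hC2r : (0 : ℝ) < C2 := by exact_mod_cast hC2
  have hC3r : (0 : ℝ) < C3 := by exact_mod_cast hC3
  have hC2θ : (0 : ℝ) < (C2 : ℝ) ^ θ := Real.rpow_pos_of_pos hC2r _
  rw [hρ]
  -- first inequality
  have h1r : (n : ℝ) ≤ C2 * ((l : ℝ) * l * s * (d : ℝ) ^ (2 * D - 1)) := by exact_mod_cast h1
  have h2r : (n : ℝ) ≤ C3 * ((l : ℝ) * l) * (d : ℝ) ^ (D - 1) * K := by exact_mod_cast h2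
  have hd0 : (0 : ℝ) ≤ d := Nat.cast_nonneg _
  have hs0 : (0 : ℝ) ≤ s := Nat.cast_nonneg _
  have hK0 : (0 : ℝ) ≤ K := Nat.cast_nonneg _
  have hdθ : ((d : ℝ) ^ (2 * D - 1)) ^ θ = (d : ℝ) ^ D := by
    rw [← Real.rpow_natCast, ← Real.rpow_mul hd0, ← Real.rpow_natCast (d : ℝ) D]
    congr 1
    have e : ((2 * D - 1 : ℕ) : ℝ) = 2 * (D : ℝ) - 1 := by
      rw [Nat.cast_sub (by omega)]; push_cast; ring
    rw [e, hθ, mul_div_assoc']
    field_simp
  have h3 : (n : ℝ) ^ θ ≤ (C2 : ℝ) ^ θ * ((l : ℝ) * l) * (s : ℝ) ^ θ * (d : ℝ) ^ D := by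
    calc (n : ℝ) ^ θ ≤ (C2 * ((l : ℝ) * l * s * (d : ℝ) ^ (2 * D - 1))) ^ θ :=
          Real.rpow_le_rpow hn0.le h1r hθ0
      _ = (C2 : ℝ) ^ θ * (((l : ℝ) * l) ^ θ * (s : ℝ) ^ θ * (d : ℝ) ^ D) := by
          rw [Real.mul_rpow hC2r.le (by positivity), Real.mul_rpow (by positivity) (by positivity),
            Real.mul_rpow (by positivity) hs0, hdθ]
      _ ≤ (C2 : ℝ) ^ θ * (((l : ℝ) * l) * (s : ℝ) ^ θ * (d : ℝ) ^ D) := by
          have h4 : ((l : ℝ) * l) ^ θ ≤ (l : ℝ) * l := by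
            calc ((l : ℝ) * l) ^ θ ≤ ((l : ℝ) * l) ^ (1 : ℝ) :=
                  Real.rpow_le_rpow_of_exponent_le (by nlinarith) hθ1
              _ = (l : ℝ) * l := Real.rpow_one _
          gcongr
      _ = _ := by ring
  have h5 : (n : ℝ) ^ (1 + θ) = n * (n : ℝ) ^ θ := by
    rw [Real.rpow_add hn0, Real.rpow_one]
  have hsplit : (d : ℝ) ^ D = (d : ℝ) ^ (D - 1) * d := by
    rw [← pow_succ]; congr 1; omega
  have h6 : (n : ℝ) * (n : ℝ) ^ θ ≤ (C2 : ℝ) ^ θ * C3 * (l : ℝ) ^ 4 * ((s : ℝ) ^ θ *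
      (K * ((d : ℝ) ^ (D - 1) * ((d : ℝ) ^ (D - 1) * d)))) := by
    calc (n : ℝ) * (n : ℝ) ^ θ ≤ (C3 * ((l : ℝ) * l) * (d : ℝ) ^ (D - 1) * K) *
          ((C2 : ℝ) ^ θ * ((l : ℝ) * l) * (s : ℝ) ^ θ * (d : ℝ) ^ D) :=
          mul_le_mul h2r h3 (by positivity) (by positivity)
      _ = _ := by rw [hsplit]; ring
  have hcast : ((K * (d ^ (D - 1) * (d ^ (D - 1) * d)) : ℕ) : ℝ) =
      K * ((d : ℝ) ^ (D - 1) * ((d : ℝ) ^ (D - 1) * d)) := by push_cast; ring
  rw [hcast, h5, div_le_iff₀ (by positivity), one_div, inv_mul_le_iff₀ (by positivity)]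
  calc (n : ℝ) * (n : ℝ) ^ θ ≤ _ := h6
    _ = _ := by ring

/-- `PAR2`. -/
theorem PAR2 (hDIM : Pool.Agent.Helper78.ME.DIM_stmt) : Pool.Agent.Helper78.ME.PAR2_stmt := by
  intro D k hD hk
  have hc2 : 0 < c2 D k := by
    unfold c2
    positivity
  refine ⟨1 / ((c2 D k : ℝ) ^ ((D : ℝ) / (2 * (D : ℝ) - 1)) * ((12 + 44 * (D * k) : ℕ) : ℝ)),
    by positivity, ?_⟩
  filter_upwards [ev_ll_cube (484 * (D * D * (k * k))), ev_ll_ge D, eventually_ge_atTop (k + 1)]
    with n h1 h2 h3 s hs hsn hd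
  have hl := ll_one_le n
  have hn : 484 * (D * D * (k * k)) * (ll n * ll n) ≤ n := by
    refine le_trans (Nat.mul_le_mul_left _ ?_) h1
    exact Nat.le_mul_of_pos_right _ hl
  obtain ⟨f1, f2, -⟩ := hDIM.1 n s D k hk hd
  have h4 : kap n * D + 1 ≤ Pool.Agent.Helper78.Ep.mR n + 1 := by
    refine (kapD_le n D hD).trans ?_
    unfold Pool.Agent.Helper78.Ep.mR
    refine le_trans ?_ (Nat.le_add_right _ 1)
    refine le_trans ?_ (Nat.le_add_right _ 8)
    rw [Nat.le_div_iff_mul_le hl]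
    refine le_trans ?_ hn
    have h5 : D ≤ D * D * (k * k) := by
      calc D = D * 1 * (1 * 1) := by ring
        _ ≤ D * D * (k * k) := Nat.mul_le_mul (Nat.mul_le_mul_left _ hD) (Nat.mul_le_mul hk hk)
    calc 11 * (D * ll n) * ll n = 11 * D * (ll n * ll n) := by ring
      _ ≤ 484 * (D * D * (k * k)) * (ll n * ll n) :=
        Nat.mul_le_mul_right _ (Nat.mul_le_mul (by omega) h5)
  have k1 := key1 D k hD n s (dd n s D k) hs hd h4 f2
  have k2 := key2 D k hD hk n s (dd n s D k) hd hn f1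
  rw [← blocks_eq n s D k hk h2 (by omega) hsn hd] at k2
  have k3 := real_key D hD (c2 D k) (12 + 44 * (D * k)) n (ll n) s (dd n s D k)
    (blocks n s D k) hl (by omega) hc2 (by omega) k1 k2
  have e : ((Nat.log 2 n : ℝ) + 1) = ((ll n : ℕ) : ℝ) := by
    unfold ll; push_cast; ring
  rw [e]
  exact k3

end Pool.Agent.Helper38.ME
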